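import Pool.Agent.H314.CS.Fin

set_option autoImplicit false

namespace Pool.Agent.Results.MP_e9ba27_mp.TwoTopological

open MeasureTheory Laplacian InnerProductSpace Filter Topology Set

/-- The Euclidean plane. -/
abbrev Plane : Type := EuclideanSpace ℝ (Fin 2)

/-- `u` is a topological vortex solution: it solves
`Δ u = lam e^u (e^u - 1) + 4 π ∑ n_j δ_{p_j}` on the plane and tends to `0` at infinity. -/
structure IsTopological (lam : ℝ) {N : ℕ} (p : Fin N → Plane) (n : Fin N → ℕ)
    (u : Plane → ℝ) : Prop where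
  /-- `u` is smooth away from the vortices -/
  smooth : ContDiffOn ℝ ((⊤ : ℕ∞) : WithTop ℕ∞) u {x | ∀ j, x ≠ p j}
  /-- the equation holds pointwise away from the vortices -/
  pointwise : ∀ x, (∀ j, x ≠ p j) →
    Δ u x = lam * Real.exp (u x) * (Real.exp (u x) - 1)
  locallyIntegrable : LocallyIntegrable u
  /-- the equation, with its point masses, holds in the sense of distributions -/
  distributional : ∀ f : Plane → ℝ, ContDiff ℝ ((⊤ : ℕ∞) : WithTop ℕ∞) f → HasCompactSupport f →
    ∫ x, u x * Δ f x = (∫ x, lam * Real.exp (u x) * (Real.exp (u x) - 1) * f x) +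
      4 * Real.pi * ∑ j, (n j : ℝ) * f (p j)
  /-- near `p j` the function `u` is `2 n_j log |x - p_j|` plus a smooth function -/
  local_form : ∀ j, ∃ r > 0, ∃ w : Plane → ℝ,
    ContDiffOn ℝ ((⊤ : ℕ∞) : WithTop ℕ∞) w (Metric.ball (p j) r) ∧
    ∀ x ∈ Metric.ball (p j) r, x ≠ p j → u x = 2 * (n j : ℝ) * Real.log ‖x - p j‖ + w x
  /-- `u` tends to `0` at infinity -/
  decay : Tendsto u (cocompact Plane) (𝓝 0)

open Pool.Agent.H314.Dir Pool.Agent.H314.CS

theorem isTopological_of (lam : ℝ) {N : ℕ} (p : Fin N → Plane) (hp : Function.Injective p)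
    (n : Fin N → ℕ) (W u : Plane → ℝ) (hW : ContDiff ℝ ((⊤ : ℕ∞) : WithTop ℕ∞) W)
    (hu : u = fun x => ∑ k, 2 * (n k : ℝ) * Real.log ‖x - p k‖ + W x)
    (hpde : ∀ x, (∀ j, x ≠ p j) → lap u x = lam * Real.exp (u x) * (Real.exp (u x) - 1))
    (hdecay : Tendsto u (cocompact Plane) (𝓝 0)) : IsTopological lam p n u := by
  have hoff : IsOpen {x : Plane | ∀ j, x ≠ p j} := by
    have : {x : Plane | ∀ j, x ≠ p j} = ⋂ j, {x | x ≠ p j} := by
      ext x; simp
    rw [this]
    exact isOpen_iInter_of_finite fun j => isOpen_ne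
  have hW2 : ContDiff ℝ 2 W := by exact_mod_cast contDiff_infty.1 hW 2
  have hLloc : ∀ k, LocallyIntegrable (fun x : Plane => 2 * (n k : ℝ) * Real.log ‖x - p k‖) :=
    fun k => (locInt_log (p k)).smul (2 * (n k : ℝ))
  refine ⟨?_, ?_, ?_, ?_, ?_, hdecay⟩
  · intro x hx
    rw [hu]
    refine ContDiffAt.contDiffWithinAt ?_
    exact (ContDiffAt.sum fun k _ => contDiffAt_const.mul (logn_smooth (p k) (hx k))).add
      hW.contDiffAt
  · intro x hx
    rw [laplacian_eq_lap]
    exact hpde x hx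
  · rw [hu]
    have h1 : LocallyIntegrable (fun x : Plane => ∑ k, 2 * (n k : ℝ) * Real.log ‖x - p k‖) :=
      locallyIntegrable_finsetSum _ fun k _ => hLloc k
    exact h1.add hW.continuous.locallyIntegrable
  · intro f hf hc
    have hf2 : ContDiff ℝ 2 f := by exact_mod_cast contDiff_infty.1 hf 2
    have h1 := dist_identity p (fun k => 2 * (n k : ℝ)) W f hW2 hf2 hc
    have h2 : ∫ x, Δ W x * f x = ∫ x, lam * Real.exp (u x) * (Real.exp (u x) - 1) * f x := by
      refine integral_congr_ae ?_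
      have hae : ∀ᵐ x : Plane, ∀ j, x ≠ p j := by
        rw [ae_all_iff]
        intro j
        rw [ae_iff]
        simp
      filter_upwards [hae] with x hx
      rw [laplacian_eq_lap, ← hpde x hx, hu]
      rw [lap_logs p (fun k => 2 * (n k : ℝ)) W hW2.contDiffAt hx]
    rw [hu]
    rw [h1, h2, hu]
    simp only [Finset.mul_sum]
    congr 1
    refine Finset.sum_congr rfl fun k _ => ?_
    ring
  · intro j
    have hfin : ∃ r > 0, ∀ x ∈ Metric.ball (p j) r, ∀ k, k ≠ j → x ≠ p k := by
      have h1 : ∀ᶠ x in 𝓝 (p j), ∀ k, k ≠ j → x ≠ p k := by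
        rw [Filter.eventually_all]
        intro k
        by_cases hkj : k = j
        · exact Eventually.of_forall fun x h => absurd hkj h
        · have : p j ≠ p k := fun h => hkj (hp h).symm
          filter_upwards [isOpen_ne.mem_nhds this] with x hx _
          exact hx
      obtain ⟨r, hr, h2⟩ := Metric.eventually_nhds_iff_ball.1 h1
      exact ⟨r, hr, h2⟩
    obtain ⟨r, hr, h2⟩ := hfin
    refine ⟨r, hr, fun x => ∑ k ∈ Finset.univ.erase j, 2 * (n k : ℝ) * Real.log ‖x - p k‖ + W x,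
      ?_, ?_⟩
    · intro x hx
      refine ContDiffAt.contDiffWithinAt ?_
      refine (ContDiffAt.sum fun k hk => contDiffAt_const.mul (logn_smooth (p k) ?_)).add
        hW.contDiffAt
      exact h2 x hx k (Finset.ne_of_mem_erase hk)
    · intro x _ _
      rw [hu]
      simp only
      rw [← Finset.add_sum_erase Finset.univ _ (Finset.mem_univ j)]
      ring

/-- For every coupling `κ > 0` there are distinct vortex points with positive multiplicities for
which the boundary value problem has two different topological solutions. -/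
theorem result : ∀ κ : ℝ, 0 < κ → ∃ (N : ℕ) (p : Fin N → Plane) (n : Fin N → ℕ),
    Function.Injective p ∧ (∀ j, 0 < n j) ∧
    ∃ u v : Plane → ℝ, IsTopological (4 / κ ^ 2) p n u ∧ IsTopological (4 / κ ^ 2) p n v ∧
      ∃ x, (∀ j, x ≠ p j) ∧ u x ≠ v x := by
  intro κ hκ
  set c : ℝ := 2 / (κ * 10 ^ 4) with hc
  have hc0 : 0 < c := by positivity
  have hlam : c ^ 2 * 10 ^ 8 = 4 / κ ^ 2 := by
    rw [hc]; field_simp; norm_num
  obtain ⟨a, ha, haeq, haT, hax⟩ := base_A
  obtain ⟨b, hb, hbeq, hbT, hbx⟩ := base_B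
  have hpi : Function.Injective (fun k : Fin 101 => c⁻¹ • pt k) := by
    intro i j hij
    have h1 : c • (c⁻¹ • pt i) = c • (c⁻¹ • pt j) := by
      simpa using congrArg (fun y => c • y) hij
    rw [smul_smul, smul_smul, mul_inv_cancel₀ hc0.ne', one_smul, one_smul] at h1
    exact pt_injective h1
  have mk : ∀ v : Plane → ℝ, ContDiff ℝ ((⊤ : ℕ∞) : WithTop ℕ∞) v →
      (∀ x, lap v x = bf x (v x)) → Tendsto (uf v) (cocompact Plane) (𝓝 0) →
      IsTopological (4 / κ ^ 2) (fun k : Fin 101 => c⁻¹ • pt k) (fun _ => 99) (uc c v) := by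
    intro v hv hveq hvT
    have hv2 : ContDiff ℝ 2 v := by exact_mod_cast contDiff_infty.1 hv 2
    refine isTopological_of _ _ hpi _ (Wc c v) (uc c v) (contDiff_Wc hv) ?_ ?_
      (uc_tendsto hc0 hvT)
    · funext x
      rw [uc]
      norm_num
    · intro x hx
      rw [uc_pde hc0 hv2 hveq hx, hlam]
  refine ⟨101, fun k => c⁻¹ • pt k, fun _ => 99, hpi, fun _ => by norm_num, uc c a, uc c b,
    mk a ha haeq haT, mk b hb hbeq hbT, ?_⟩
  set x0 : Plane := !₂[(1 / 2 : ℝ), (0 : ℝ)] with hx0
  have hx0k : ∀ k, x0 ≠ pt k := by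
    have h1 : 0 < Ef x0 := by
      refine h4_pos ?_ ?_
      · rw [rk_eq, pc_zero, sub_zero, hx0, cz, Complex.normSq_apply]
        norm_num
      · rw [Pn_eq]
        have h3 : ‖cz x0 ^ 100‖ < 1 := by
          rw [norm_pow]
          refine pow_lt_one₀ (norm_nonneg _) ?_ (by norm_num)
          have h4 : ‖cz x0‖ ^ 2 = 1 / 4 := by
            rw [← rk0_eq, rk_eq, pc_zero, sub_zero, hx0, cz, Complex.normSq_apply]
            norm_num
          nlinarith [norm_nonneg (cz x0)]
        have h5 : cz x0 ^ 100 - 1 ≠ 0 := by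
          intro h
          rw [sub_eq_zero.1 h, norm_one] at h3
          exact lt_irrefl _ h3
        have := norm_pos_iff.2 h5
        positivity
    intro k h
    have := (Ef_pos_iff x0).1 h1 k
    rw [rk, ← h, sub_self, norm_zero] at this
    norm_num at this
  refine ⟨c⁻¹ • x0, ?_, ?_⟩
  · refine (off_iff hc0).2 fun k => ?_
    rw [smul_smul, mul_inv_cancel₀ hc0.ne', one_smul]
    exact hx0k k
  · have hoff : ∀ k, c⁻¹ • x0 ≠ c⁻¹ • pt k := by
      refine (off_iff hc0).2 fun k => ?_
      rw [smul_smul, mul_inv_cancel₀ hc0.ne', one_smul]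
      exact hx0k k
    rw [uc_eq hc0 hoff, uc_eq hc0 hoff, smul_smul, mul_inv_cancel₀ hc0.ne', one_smul,
      (uf_eq hx0k).2, (uf_eq hx0k).2]
    intro h
    linarith

end Pool.Agent.Results.MP_e9ba27_mp.TwoTopological
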